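import Pool.Agent.H54.KVA.Defs

/-!
# Module GAU: the Gaussian integral over a cube
-/

set_option autoImplicit false

namespace Pool.KVA

open Finset Real MeasureTheory
open Pool.Agent.H49.Ent Pool.Agent.H32.Dense Pool.STK

lemma gau_one {a x c : ℝ} (ha : 0 ≤ a) (hc1 : c ≤ 1) :
    ∫ y in Set.Icc 0 c, Real.exp (-(a * (x - y) ^ 2) / 4) ≤
      Real.sqrt (8 * Real.pi) * (1 + a) ^ (-(1 / 2 : ℝ)) := by
  have h1a : (0 : ℝ) < 1 + a := by linarith
  have hpi : 3 < Real.pi := Real.pi_gt_three
  have hrw : (1 + a) ^ (-(1 / 2 : ℝ)) = 1 / Real.sqrt (1 + a) := by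
    rw [Real.rpow_neg h1a.le, ← Real.sqrt_eq_rpow, one_div]
  rw [hrw]
  have hcont : Continuous fun y : ℝ => Real.exp (-(a * (x - y) ^ 2) / 4) := by fun_prop
  rcases le_or_gt a 1 with h | h
  · have h1 : ∫ y in Set.Icc 0 c, Real.exp (-(a * (x - y) ^ 2) / 4) ≤ 1 := by
      have h2 : ∫ y in Set.Icc 0 c, Real.exp (-(a * (x - y) ^ 2) / 4) ≤
          ∫ y in Set.Icc 0 c, (1 : ℝ) := by
        refine setIntegral_mono_on (hcont.integrableOn_Icc) (by simp) measurableSet_Icc ?_
        intro y _
        rw [Real.exp_le_one_iff]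
        have := mul_nonneg ha (sq_nonneg (x - y))
        linarith
      refine h2.trans ?_
      simp only [integral_const, MeasurableSet.univ, measureReal_restrict_apply, Set.univ_inter,
        smul_eq_mul, mul_one]
      rw [Real.volume_real_Icc]
      simpa using hc1
    refine h1.trans ?_
    have h3 : Real.sqrt (1 + a) ≤ Real.sqrt (8 * Real.pi) := Real.sqrt_le_sqrt (by linarith)
    rw [mul_one_div, le_div_iff₀ (Real.sqrt_pos.mpr h1a), one_mul]
    exact h3
  · have ha0 : 0 < a := by linarith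
    have hint : Integrable fun y : ℝ => Real.exp (-(a / 4) * y ^ 2) :=
      integrable_exp_neg_mul_sq (by linarith)
    have hfun : (fun y : ℝ => Real.exp (-(a * (x - y) ^ 2) / 4)) =
        fun y : ℝ => Real.exp (-(a / 4) * (y - x) ^ 2) := by
      funext y
      congr 1
      ring
    have hint2 : Integrable fun y : ℝ => Real.exp (-(a / 4) * (y - x) ^ 2) :=
      hint.comp_sub_right x
    have h1 : ∫ y in Set.Icc 0 c, Real.exp (-(a * (x - y) ^ 2) / 4) ≤
        ∫ y : ℝ, Real.exp (-(a / 4) * (y - x) ^ 2) := by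
      rw [hfun]
      exact setIntegral_le_integral hint2 (Filter.Eventually.of_forall fun y => (Real.exp_pos _).le)
    have h2 : ∫ y : ℝ, Real.exp (-(a / 4) * (y - x) ^ 2) = Real.sqrt (Real.pi / (a / 4)) := by
      rw [integral_sub_right_eq_self (fun y : ℝ => Real.exp (-(a / 4) * y ^ 2)) x]
      exact integral_gaussian (a / 4)
    rw [h2] at h1
    refine h1.trans ?_
    rw [mul_one_div, ← Real.sqrt_div (by positivity)]
    refine Real.sqrt_le_sqrt ?_
    rw [div_le_div_iff₀ (by linarith) h1a]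
    nlinarith

lemma gau_inner {d : ℕ} {a : Fin d → ℝ} (ha : ∀ i, 0 ≤ a i) (x : Fin d → ℝ) :
    ∫ y in cube d, Real.exp (-(∑ i, a i * (x i - y i) ^ 2) / 4) ≤
      Real.sqrt (8 * Real.pi) ^ d * ∏ i, (1 + a i) ^ (-(1 / 2 : ℝ)) := by
  have hprod : ∀ y : Fin d → ℝ, Real.exp (-(∑ i, a i * (x i - y i) ^ 2) / 4) =
      ∏ i, Real.exp (-(a i * (x i - y i) ^ 2) / 4) := by
    intro y
    rw [← Real.exp_sum, ← Finset.sum_div, Finset.sum_neg_distrib]
  simp_rw [hprod]
  unfold cube
  rw [volume_pi, Measure.restrict_pi_pi,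
    integral_fintype_prod_eq_prod (fun i (y : ℝ) => Real.exp (-(a i * (x i - y) ^ 2) / 4))]
  have hc : (1 : ℝ) / ((d : ℝ) + 1) ≤ 1 := by
    rw [div_le_one (by positivity)]
    have : (0 : ℝ) ≤ d := Nat.cast_nonneg d
    linarith
  have hcard : Real.sqrt (8 * Real.pi) ^ d * ∏ i, (1 + a i) ^ (-(1 / 2 : ℝ)) =
      ∏ i, (Real.sqrt (8 * Real.pi) * (1 + a i) ^ (-(1 / 2 : ℝ))) := by
    rw [Finset.prod_mul_distrib, Finset.prod_const, Finset.card_univ, Fintype.card_fin]
  rw [hcard]
  refine Finset.prod_le_prod (fun i _ => ?_) fun i _ => gau_one (ha i) hc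
  exact integral_nonneg fun y => (Real.exp_pos _).le

theorem gau_thm : GAUStmt := by
  intro d
  refine ⟨Real.sqrt (8 * Real.pi) ^ d, by positivity, fun a ha => ?_⟩
  set B : ℝ := Real.sqrt (8 * Real.pi) ^ d * ∏ i, (1 + a i) ^ (-(1 / 2 : ℝ)) with hB
  have hB0 : 0 ≤ B := by
    refine mul_nonneg (by positivity) (Finset.prod_nonneg fun i _ => ?_)
    have := ha i
    positivity
  have hcomp : IsCompact (cube d) := isCompact_univ_pi fun _ => isCompact_Icc
  have hcont : Continuous fun η : (Fin d → ℝ) × (Fin d → ℝ) =>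
      Real.exp (-(∑ i, a i * (η.1 i - η.2 i) ^ 2) / 4) := by fun_prop
  rw [Measure.volume_eq_prod, setIntegral_prod _
    (by rw [← Measure.volume_eq_prod]; exact hcont.continuousOn.integrableOn_compact (hcomp.prod hcomp))]
  have hvol : volume.real (cube d) ≤ 1 := by
    unfold cube
    rw [Measure.real, volume_pi_pi]
    simp only [Real.volume_Icc, sub_zero, Finset.prod_const, Finset.card_univ, Fintype.card_fin]
    rw [ENNReal.toReal_pow, ENNReal.toReal_ofReal (by positivity)]
    refine pow_le_one₀ (by positivity) ?_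
    rw [div_le_one (by positivity)]
    have : (0 : ℝ) ≤ d := Nat.cast_nonneg d
    linarith
  have hfin : volume (cube d) ≠ ⊤ := hcomp.measure_lt_top.ne
  have hmeas : MeasurableSet (cube d) := hcomp.isClosed.measurableSet
  calc ∫ x in cube d, ∫ y in cube d,
        Real.exp (-(∑ i, a i * ((x, y).1 i - (x, y).2 i) ^ 2) / 4)
      ≤ ∫ x in cube d, B := by
        refine integral_mono_of_nonneg (Filter.Eventually.of_forall fun x => ?_)
          (integrableOn_const hfin) (Filter.Eventually.of_forall fun x => gau_inner ha x)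
        exact integral_nonneg fun y => (Real.exp_pos _).le
    _ = volume.real (cube d) * B := by
        rw [setIntegral_const, smul_eq_mul]
    _ ≤ 1 * B := mul_le_mul_of_nonneg_right hvol hB0
    _ = B := one_mul B

end Pool.KVA
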