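import Pool.Agent.H54.KVA.Defs
import Pool.Agent.H72.STK.PR2
import Pool.Agent.H40.STK.PRD

/-!
# Module LOW: lower bound for the entropy of the sum
-/

set_option autoImplicit false

namespace Pool.KVA

open Finset Real MeasureTheory
open Pool.Agent.H49.Ent Pool.Agent.H32.Dense Pool.STK

/-- Conditional characteristic function. -/
noncomputable def lphi {Ω : Type} [Fintype Ω] {d : ℕ} (p : Ω → ℝ) (Y : Ω → Fin d → ℝ) (j : ℕ)
    (v : Fin d → Fin d → ℝ) (u : Fin d → ℤ) (η : (Fin d → ℝ) × (Fin d → ℝ)) : ℂ :=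
  ∑ ω, ((cond p (Fl Y j) u ω : ℝ) : ℂ) *
    Complex.exp (Complex.I * ((2 ^ j * ip (lc v (η.1 - η.2)) (Y ω) : ℝ) : ℂ))

lemma low_isLaw {Ω₁ Ω₂ : Type} [Fintype Ω₁] [Fintype Ω₂] {p₁ : Ω₁ → ℝ} {p₂ : Ω₂ → ℝ}
    (h₁ : IsLaw p₁) (h₂ : IsLaw p₂) (n : ℕ) : IsLaw (ps p₁ p₂ n) := by
  have h := (prd_thm Ω₂ (Fin n) Unit p₂ h₂).1
  exact (pr2_thm Ω₁ (Fin n → Ω₂) Unit Unit p₁ (prd p₂) h₁ h).1

/-- Sums over the product space. -/
lemma low_sum {Ω₁ Ω₂ : Type} [Fintype Ω₁] [Fintype Ω₂] {n : ℕ} (a : Ω₁ → ℂ)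
    (b : Fin n → Ω₂ → ℂ) :
    ∑ w : Ω₁ × (Fin n → Ω₂), a w.1 * ∏ l, b l (w.2 l) = (∑ x, a x) * ∏ l, ∑ y, b l y := by
  classical
  rw [Fintype.sum_prod_type, Finset.sum_mul]
  refine Finset.sum_congr rfl fun x _ => ?_
  show ∑ y : Fin n → Ω₂, a x * ∏ l, b l (y l) = _
  rw [← Finset.mul_sum]
  congr 1
  rw [Finset.prod_univ_sum, Fintype.piFinset_univ]

lemma low_sumR {Ω₁ Ω₂ : Type} [Fintype Ω₁] [Fintype Ω₂] {n : ℕ} (a : Ω₁ → ℝ)
    (b : Fin n → Ω₂ → ℝ) :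
    ∑ w : Ω₁ × (Fin n → Ω₂), a w.1 * ∏ l, b l (w.2 l) = (∑ x, a x) * ∏ l, ∑ y, b l y := by
  classical
  rw [Fintype.sum_prod_type, Finset.sum_mul]
  refine Finset.sum_congr rfl fun x _ => ?_
  show ∑ y : Fin n → Ω₂, a x * ∏ l, b l (y l) = _
  rw [← Finset.mul_sum]
  congr 1
  rw [Finset.prod_univ_sum, Fintype.piFinset_univ]

lemma low_ite {Ω₁ Ω₂ : Type} [Fintype Ω₁] [Fintype Ω₂] {d n : ℕ} (p₁ : Ω₁ → ℝ) (p₂ : Ω₂ → ℝ)
    (Y : Ω₂ → Fin d → ℝ) (j : ℕ) (w w' : Ω₁ × (Fin n → Ω₂))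
    [Decidable (cx Y j w' = cx Y j w)] [Decidable (w'.1 = w.1)]
    [∀ l, Decidable (Fl Y j (w'.2 l) = Fl Y j (w.2 l))] :
    (if cx Y j w' = cx Y j w then ps p₁ p₂ n w' else 0) =
      (if w'.1 = w.1 then p₁ w'.1 else 0) *
        ∏ l, (if Fl Y j (w'.2 l) = Fl Y j (w.2 l) then p₂ (w'.2 l) else 0) := by
  by_cases h : cx Y j w' = cx Y j w
  · have h' := h
    unfold cx at h'
    simp only [Prod.mk.injEq] at h'
    have h2 : ∀ l, Fl Y j (w'.2 l) = Fl Y j (w.2 l) := fun l => congrFun h'.2 l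
    rw [if_pos h, if_pos h'.1]
    unfold ps pr2 prd
    congr 1
    refine Finset.prod_congr rfl fun l _ => ?_
    rw [if_pos (h2 l)]
  · rw [if_neg h]
    by_cases h1 : w'.1 = w.1
    · have h2 : ∃ l, ¬ Fl Y j (w'.2 l) = Fl Y j (w.2 l) := by
        by_contra hcon
        rw [not_exists] at hcon
        apply h
        unfold cx
        rw [h1]
        congr 1
        funext l
        exact not_not.mp (hcon l)
      obtain ⟨l, hl⟩ := h2
      rw [Finset.prod_eq_zero (Finset.mem_univ l) (if_neg hl), mul_zero]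
    · rw [if_neg h1, zero_mul]

lemma low_law {Ω₁ Ω₂ : Type} [Fintype Ω₁] [Fintype Ω₂] {d n : ℕ} (p₁ : Ω₁ → ℝ) (p₂ : Ω₂ → ℝ)
    (Y : Ω₂ → Fin d → ℝ) (j : ℕ) (w : Ω₁ × (Fin n → Ω₂)) :
    law (ps p₁ p₂ n) (cx Y j) (cx Y j w) = p₁ w.1 * ∏ l, law p₂ (Fl Y j) (Fl Y j (w.2 l)) := by
  classical
  unfold law
  have h1 := low_sumR (n := n) (fun x => if x = w.1 then p₁ x else 0)
      (fun l y => if Fl Y j y = Fl Y j (w.2 l) then p₂ y else 0)
  refine Eq.trans (Finset.sum_congr rfl fun w' _ => ?_) (h1.trans ?_)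
  · have h2 := low_ite p₁ p₂ Y j w w'
    by_cases h : cx Y j w' = cx Y j w
    · rw [if_pos h] at h2 ⊢
      exact h2
    · rw [if_neg h] at h2 ⊢
      exact h2
  · congr 1
    · simp
    · refine Finset.prod_congr rfl fun l _ => Finset.sum_congr rfl fun y _ => ?_
      by_cases h : Fl Y j y = Fl Y j (w.2 l)
      · rw [if_pos h, if_pos h]
      · rw [if_neg h, if_neg h]

open Classical in
lemma low_cond {Ω₁ Ω₂ : Type} [Fintype Ω₁] [Fintype Ω₂] {d n : ℕ} (p₁ : Ω₁ → ℝ) (p₂ : Ω₂ → ℝ)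
    (Y : Ω₂ → Fin d → ℝ) (j : ℕ) (w w' : Ω₁ × (Fin n → Ω₂)) (hw : p₁ w.1 ≠ 0) :
    cond (ps p₁ p₂ n) (cx Y j) (cx Y j w) w' =
      (if w'.1 = w.1 then 1 else 0) *
        ∏ l, cond p₂ (Fl Y j) (Fl Y j (w.2 l)) (w'.2 l) := by
  have h0 : cond (ps p₁ p₂ n) (cx Y j) (cx Y j w) w' =
      (if cx Y j w' = cx Y j w then ps p₁ p₂ n w' else 0) /
        law (ps p₁ p₂ n) (cx Y j) (cx Y j w) := by
    unfold Pool.Agent.H49.Ent.cond
    split_ifs
    · rfl
    · rw [zero_div]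
  have h1 : ∀ l, cond p₂ (Fl Y j) (Fl Y j (w.2 l)) (w'.2 l) =
      (if Fl Y j (w'.2 l) = Fl Y j (w.2 l) then p₂ (w'.2 l) else 0) /
        law p₂ (Fl Y j) (Fl Y j (w.2 l)) := by
    intro l
    unfold Pool.Agent.H49.Ent.cond
    split_ifs
    · rfl
    · rw [zero_div]
  rw [h0, low_law, low_ite, Finset.prod_congr rfl fun l _ => h1 l, Finset.prod_div_distrib,
    mul_div_mul_comm]
  congr 1
  split_ifs with h
  · rw [h, div_self hw]
  · rw [zero_div]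

/-- The conditional characteristic function of the sum. -/
lemma low_char {Ω₁ Ω₂ : Type} [Fintype Ω₁] [Fintype Ω₂] {d n : ℕ} (p₁ : Ω₁ → ℝ) (p₂ : Ω₂ → ℝ)
    (X : Ω₁ → Fin d → ℝ) (Y : Ω₂ → Fin d → ℝ) (j : ℕ) (v : Fin d → Fin d → ℝ)
    (w : Ω₁ × (Fin n → Ω₂)) (hw : p₁ w.1 ≠ 0) (η : (Fin d → ℝ) × (Fin d → ℝ)) :
    ‖∑ w', ((cond (ps p₁ p₂ n) (cx Y j) (cx Y j w) w' : ℝ) : ℂ) *
        Complex.exp (Complex.I *
          (ip (lc v (η.1 - η.2)) (fun i => 2 ^ j * Sm n X Y w' i) : ℝ))‖ =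
      ∏ l, ‖lphi p₂ Y j v (Fl Y j (w.2 l)) η‖ := by
  classical
  set ξ := lc v (η.1 - η.2) with hξ
  have hip : ∀ w' : Ω₁ × (Fin n → Ω₂), ip ξ (fun i => 2 ^ j * Sm n X Y w' i) =
      2 ^ j * ip ξ (X w'.1) + ∑ l, 2 ^ j * ip ξ (Y (w'.2 l)) := by
    intro w'
    unfold ip Sm
    rw [← Finset.mul_sum, Finset.sum_comm, ← mul_add, ← Finset.sum_add_distrib, Finset.mul_sum]
    refine Finset.sum_congr rfl fun i _ => ?_
    rw [← Finset.mul_sum]
    ring
  have hterm : ∀ w' : Ω₁ × (Fin n → Ω₂),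
      ((cond (ps p₁ p₂ n) (cx Y j) (cx Y j w) w' : ℝ) : ℂ) *
        Complex.exp (Complex.I * (ip ξ (fun i => 2 ^ j * Sm n X Y w' i) : ℝ)) =
      ((if w'.1 = w.1 then 1 else 0) *
          Complex.exp (Complex.I * ((2 ^ j * ip ξ (X w'.1) : ℝ) : ℂ))) *
        ∏ l, (((cond p₂ (Fl Y j) (Fl Y j (w.2 l)) (w'.2 l) : ℝ) : ℂ) *
          Complex.exp (Complex.I * ((2 ^ j * ip ξ (Y (w'.2 l)) : ℝ) : ℂ))) := by
    intro w'
    rw [low_cond p₁ p₂ Y j w w' hw, hip, Finset.prod_mul_distrib, ← Complex.exp_sum]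
    by_cases h : w'.1 = w.1
    · rw [if_pos h, if_pos h]
      push_cast
      rw [mul_add, Complex.exp_add, Finset.mul_sum]
      ring
    · rw [if_neg h, if_neg h]
      simp
  rw [Finset.sum_congr rfl fun w' _ => hterm w',
    low_sum (fun x => (if x = w.1 then 1 else 0) *
          Complex.exp (Complex.I * ((2 ^ j * ip ξ (X x) : ℝ) : ℂ)))
      (fun l y => ((cond p₂ (Fl Y j) (Fl Y j (w.2 l)) y : ℝ) : ℂ) *
          Complex.exp (Complex.I * ((2 ^ j * ip ξ (Y y) : ℝ) : ℂ)))]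
  rw [norm_mul, norm_prod]
  have h1 : ‖∑ x, (if x = w.1 then (1 : ℂ) else 0) *
      Complex.exp (Complex.I * ((2 ^ j * ip ξ (X x) : ℝ) : ℂ))‖ = 1 := by
    simp only [ite_mul, one_mul, zero_mul, Finset.sum_ite_eq', Finset.mem_univ, if_true]
    rw [mul_comm, Complex.norm_exp_ofReal_mul_I]
  rw [h1, one_mul]
  rfl

/-- The vectors `lc v (η - η')` are short. -/
lemma low_short {d : ℕ} {v : Fin d → Fin d → ℝ} (hv : ON v) {η : (Fin d → ℝ) × (Fin d → ℝ)}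
    (hη : η ∈ cube d ×ˢ cube d) : ∑ l, |lc v (η.1 - η.2) l| ≤ 1 := by
  classical
  set x := η.1 - η.2 with hx
  have hx1 : ∀ i, |x i| ≤ 1 / ((d : ℝ) + 1) := by
    intro i
    have h1 := hη.1 i (Set.mem_univ i)
    have h2 := hη.2 i (Set.mem_univ i)
    simp only [Set.mem_Icc] at h1 h2
    rw [hx, Pi.sub_apply, abs_le]
    constructor <;> linarith [h1.1, h1.2, h2.1, h2.2]
  have hnorm : ∑ l, lc v x l ^ 2 = ∑ i, x i ^ 2 := by
    have h1 : ∀ l, lc v x l ^ 2 = ∑ i, ∑ i', x i * x i' * (v i l * v i' l) := by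
      intro l
      unfold lc
      rw [sq, Finset.sum_mul_sum]
      refine Finset.sum_congr rfl fun i _ => Finset.sum_congr rfl fun i' _ => ?_
      ring
    rw [Finset.sum_congr rfl fun l _ => h1 l, Finset.sum_comm]
    refine Finset.sum_congr rfl fun i _ => ?_
    rw [Finset.sum_comm]
    have h2 : ∀ i', ∑ l, x i * x i' * (v i l * v i' l) = x i * x i' * (if i = i' then 1 else 0) := by
      intro i'
      rw [← Finset.mul_sum]
      congr 1
      exact hv i i'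
    rw [Finset.sum_congr rfl fun i' _ => h2 i']
    simp [sq]
  have hd : (0 : ℝ) ≤ d := Nat.cast_nonneg d
  have hsum : ∑ i, x i ^ 2 ≤ d * (1 / ((d : ℝ) + 1)) ^ 2 := by
    have : ∑ i, x i ^ 2 ≤ ∑ _i : Fin d, (1 / ((d : ℝ) + 1)) ^ 2 := by
      refine Finset.sum_le_sum fun i _ => ?_
      rw [← sq_abs (x i)]
      exact pow_le_pow_left₀ (abs_nonneg _) (hx1 i) 2
    refine this.trans (le_of_eq ?_)
    rw [Finset.sum_const, Finset.card_univ, Fintype.card_fin, nsmul_eq_mul]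
  have hcs : (∑ l, |lc v x l|) ^ 2 ≤ d * ∑ l, lc v x l ^ 2 := by
    have := sq_sum_le_card_mul_sum_sq (s := (Finset.univ : Finset (Fin d)))
      (f := fun l => |lc v x l|)
    simpa [sq_abs] using this
  have hfin : (∑ l, |lc v x l|) ^ 2 ≤ 1 ^ 2 := by
    calc (∑ l, |lc v x l|) ^ 2 ≤ d * ∑ l, lc v x l ^ 2 := hcs
      _ ≤ d * (d * (1 / ((d : ℝ) + 1)) ^ 2) := by
          rw [hnorm]; exact mul_le_mul_of_nonneg_left hsum hd
      _ = (d / ((d : ℝ) + 1)) ^ 2 := by field_simp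
      _ ≤ 1 ^ 2 := by
          refine pow_le_pow_left₀ (by positivity) ?_ 2
          rw [div_le_one (by positivity)]
          linarith
  exact le_of_sq_le_sq hfin (by norm_num)

/-- The first bound for the characteristic function. -/
lemma low_chf (chf : CHFStmt) {Ω₂ : Type} [Fintype Ω₂] {d : ℕ} {p₂ : Ω₂ → ℝ} (h₂ : IsLaw p₂)
    {Y : Ω₂ → Fin d → ℝ} {j : ℕ} {v : Fin d → Fin d → ℝ} {lam : Fin d → ℝ}
    (hA : Adp p₂ Y j v lam) {η : (Fin d → ℝ) × (Fin d → ℝ)} (hη : η ∈ cube d ×ˢ cube d) :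
    Ex p₂ (fun ω => ‖lphi p₂ Y j v (Fl Y j ω) η‖) ≤
      Real.exp (-(∑ i, lam i * (η.1 i - η.2 i) ^ 2) / 4) := by
  have h := chf Ω₂ (Fin d → ℤ) p₂ (fun ω => 2 ^ j * ip (lc v (η.1 - η.2)) (Y ω)) (Fl Y j) h₂ ?_
  · rw [hA.diag (η.1 - η.2)] at h
    exact h
  · intro ω ω' _ _ he
    have hl : ∀ l, |2 ^ j * Y ω l - 2 ^ j * Y ω' l| ≤ 1 := by
      intro l
      have hfl : ⌊2 ^ j * Y ω l⌋ = ⌊2 ^ j * Y ω' l⌋ := congrFun he l
      exact (Int.abs_sub_lt_one_of_floor_eq_floor hfl).le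
    have h1 : 2 ^ j * ip (lc v (η.1 - η.2)) (Y ω) - 2 ^ j * ip (lc v (η.1 - η.2)) (Y ω') =
        ∑ l, lc v (η.1 - η.2) l * (2 ^ j * Y ω l - 2 ^ j * Y ω' l) := by
      unfold ip
      rw [Finset.mul_sum, Finset.mul_sum, ← Finset.sum_sub_distrib]
      refine Finset.sum_congr rfl fun l _ => ?_
      ring
    rw [h1]
    calc |∑ l, lc v (η.1 - η.2) l * (2 ^ j * Y ω l - 2 ^ j * Y ω' l)|
        ≤ ∑ l, |lc v (η.1 - η.2) l * (2 ^ j * Y ω l - 2 ^ j * Y ω' l)| :=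
          Finset.abs_sum_le_sum_abs _ _
      _ ≤ ∑ l, |lc v (η.1 - η.2) l| := by
          refine Finset.sum_le_sum fun l _ => ?_
          rw [abs_mul]
          exact mul_le_of_le_one_right (abs_nonneg _) (hl l)
      _ ≤ 1 := low_short hA.on hη

lemma low_cont {Ω : Type} [Fintype Ω] {d : ℕ} (p : Ω → ℝ) (Y : Ω → Fin d → ℝ) (j : ℕ)
    (v : Fin d → Fin d → ℝ) (u : Fin d → ℤ) : Continuous (lphi p Y j v u) := by
  unfold lphi ip lc
  fun_prop

theorem low_thm : CHFStmt → ESSStmt → GAUStmt → MAXPStmt → LOWStmt := by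
  intro chf ess gau maxp d
  obtain ⟨Ce, hCe, ess⟩ := ess d
  obtain ⟨Cg, hCg, gau⟩ := gau d
  refine ⟨|Real.log (Ce * Cg)|, abs_nonneg _, ?_⟩
  intro Ω₁ Ω₂ _ _ p₁ p₂ X Y n j v lam h₁ h₂ hA
  classical
  set q := ps p₁ p₂ n with hq
  have hqL : IsLaw q := low_isLaw h₁ h₂ n
  have hcube : MeasurableSet (cube d ×ˢ cube d) :=
    ((isCompact_univ_pi fun _ => isCompact_Icc).prod
      (isCompact_univ_pi fun _ => isCompact_Icc)).isClosed.measurableSet
  have hcomp : IsCompact (cube d ×ˢ cube d) :=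
    (isCompact_univ_pi fun _ => isCompact_Icc).prod (isCompact_univ_pi fun _ => isCompact_Icc)
  set B : Ω₁ × (Fin n → Fin d → ℤ) → ℝ := fun c =>
    Ce * ∫ η in cube d ×ˢ cube d, ∏ l, ‖lphi p₂ Y j v (c.2 l) η‖ with hB
  have hmax : ∀ w, 0 < q w → ∀ x,
      law (cond q (cx Y j) (cx Y j w)) (Fl (Sm n X Y) j) x ≤ B (cx Y j w) := by
    intro w hw x
    have hlaw : law q (cx Y j) (cx Y j w) ≠ 0 := (law_pos hqL.nonneg _ hw).ne'
    have hp1 : p₁ w.1 ≠ 0 := by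
      intro h0
      rw [hq] at hw
      unfold ps pr2 at hw
      rw [h0, zero_mul] at hw
      exact lt_irrefl _ hw
    have h := ess (Ω₁ × (Fin n → Ω₂)) (cond q (cx Y j) (cx Y j w))
      (fun w' i => 2 ^ j * Sm n X Y w' i) v x
      ⟨fun w' => cond_nonneg hqL.nonneg _ _ _, sum_cond q _ hlaw⟩ hA.on
    refine h.trans (le_of_eq ?_)
    rw [hB]
    congr 1
    refine setIntegral_congr_fun hcube fun η _ => ?_
    exact low_char p₁ p₂ X Y j v w hp1 η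
  have hM := maxp (Ω₁ × (Fin n → Ω₂)) _ _ q (Fl (Sm n X Y) j) (cx Y j) B hqL hmax
  have hpos : 0 < Ex q (fun w => B (cx Y j w)) := by
    obtain ⟨w, hw⟩ : ∃ w, 0 < q w := by
      by_contra hcon
      rw [not_exists] at hcon
      have : ∑ w, q w ≤ 0 := Finset.sum_nonpos fun w _ => not_lt.mp (hcon w)
      rw [hqL.sum_one] at this
      linarith
    have hBn : ∀ w, 0 < q w → 0 ≤ B (cx Y j w) := fun w hw =>
      le_trans (law_nonneg (fun w' => cond_nonneg hqL.nonneg _ _ _) _ _)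
        (hmax w hw (Fl (Sm n X Y) j w))
    have hBw : 0 < B (cx Y j w) := by
      refine lt_of_lt_of_le ?_ (hmax w hw (Fl (Sm n X Y) j w))
      refine law_pos (fun w' => cond_nonneg hqL.nonneg _ _ _) _ ?_
      rw [cond_pos_iff hqL.nonneg]
      exact ⟨hw, rfl⟩
    unfold Ex
    refine Finset.sum_pos' (fun w' _ => ?_) ⟨w, Finset.mem_univ _, mul_pos hw hBw⟩
    rcases (hqL.nonneg w').lt_or_eq with h0 | h0
    · exact mul_nonneg h0.le (hBn w' h0)
    · rw [← h0, zero_mul]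
  have hmean : Ex q (fun w => B (cx Y j w)) ≤
      Ce * (Cg * ∏ i, (1 + n * lam i) ^ (-(1 / 2 : ℝ))) := by
    have h1 : Ex q (fun w => B (cx Y j w)) =
        Ce * ∫ η in cube d ×ˢ cube d,
          (Ex p₂ (fun ω => ‖lphi p₂ Y j v (Fl Y j ω) η‖)) ^ n := by
      have h2 : Ex q (fun w => B (cx Y j w)) =
          Ce * ∑ w, ∫ η in cube d ×ˢ cube d,
            q w * ∏ l, ‖lphi p₂ Y j v (Fl Y j (w.2 l)) η‖ := by
        unfold Ex
        rw [Finset.mul_sum]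
        refine Finset.sum_congr rfl fun w _ => ?_
        rw [integral_const_mul]
        show q w * (Ce * ∫ η in cube d ×ˢ cube d, ∏ l, ‖lphi p₂ Y j v (Fl Y j (w.2 l)) η‖) =
          Ce * (q w * ∫ η in cube d ×ˢ cube d, ∏ l, ‖lphi p₂ Y j v (Fl Y j (w.2 l)) η‖)
        ring
      rw [h2]
      congr 1
      rw [← integral_finsetSum]
      · refine setIntegral_congr_fun hcube fun η _ => ?_
        show ∑ w, q w * ∏ l, ‖lphi p₂ Y j v (Fl Y j (w.2 l)) η‖ = _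
        have h3 : ∀ w : Ω₁ × (Fin n → Ω₂), q w * ∏ l, ‖lphi p₂ Y j v (Fl Y j (w.2 l)) η‖ =
            p₁ w.1 * ∏ l, (p₂ (w.2 l) * ‖lphi p₂ Y j v (Fl Y j (w.2 l)) η‖) := by
          intro w
          rw [hq]
          unfold ps pr2 prd
          rw [Finset.prod_mul_distrib]
          ring
        rw [Finset.sum_congr rfl fun w _ => h3 w,
          low_sumR p₁ (fun _ y => p₂ y * ‖lphi p₂ Y j v (Fl Y j y) η‖), h₁.sum_one, one_mul,
          Finset.prod_const, Finset.card_univ, Fintype.card_fin]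
        rfl
      · intro w _
        have hc : Continuous fun η => q w * ∏ l, ‖lphi p₂ Y j v (Fl Y j (w.2 l)) η‖ :=
          continuous_const.mul (continuous_finsetProd _ fun l _ =>
            (low_cont p₂ Y j v (Fl Y j (w.2 l))).norm)
        exact hc.continuousOn.integrableOn_compact hcomp
    rw [h1]
    refine mul_le_mul_of_nonneg_left ?_ hCe.le
    have h4 := gau (fun i => n * lam i) (fun i => mul_nonneg (Nat.cast_nonneg n) (hA.nonneg i))
    refine le_trans ?_ h4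
    have hcE : Continuous fun η : (Fin d → ℝ) × (Fin d → ℝ) =>
        Ex p₂ (fun ω => ‖lphi p₂ Y j v (Fl Y j ω) η‖) := by
      unfold Ex
      exact continuous_finsetSum _ fun ω _ =>
        continuous_const.mul (low_cont p₂ Y j v (Fl Y j ω)).norm
    have hcG : Continuous fun η : (Fin d → ℝ) × (Fin d → ℝ) =>
        Real.exp (-(∑ i, (n * lam i) * (η.1 i - η.2 i) ^ 2) / 4) := by fun_prop
    refine setIntegral_mono_on ((hcE.pow n).continuousOn.integrableOn_compact hcomp)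
      (hcG.continuousOn.integrableOn_compact hcomp) hcube fun η hη => ?_
    have h5 := low_chf chf h₂ hA hη
    have h6 : 0 ≤ Ex p₂ (fun ω => ‖lphi p₂ Y j v (Fl Y j ω) η‖) :=
      Ex_nonneg h₂.nonneg fun ω _ => norm_nonneg _
    refine (pow_le_pow_left₀ h6 h5 n).trans (le_of_eq ?_)
    rw [← Real.exp_nat_mul]
    congr 1
    have h7 : ∑ i, (n * lam i) * (η.1 i - η.2 i) ^ 2 =
        n * ∑ i, lam i * (η.1 i - η.2 i) ^ 2 := by
      rw [Finset.mul_sum]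
      exact Finset.sum_congr rfl fun i _ => by ring
    rw [h7]
    ring
  have hprodpos : 0 < ∏ i, (1 + n * lam i) ^ (-(1 / 2 : ℝ)) := by
    refine Finset.prod_pos fun i _ => ?_
    have : 0 ≤ n * lam i := mul_nonneg (Nat.cast_nonneg n) (hA.nonneg i)
    exact Real.rpow_pos_of_pos (by linarith) _
  have hlog : Real.log (Ex q (fun w => B (cx Y j w))) ≤
      Real.log (Ce * Cg) + ∑ i, (-(1 / 2 : ℝ)) * Real.log (1 + n * lam i) := by
    have h8 := Real.log_le_log hpos hmean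
    rw [← mul_assoc, Real.log_mul (mul_pos hCe hCg).ne' hprodpos.ne',
      Real.log_prod] at h8
    · refine h8.trans (le_of_eq ?_)
      congr 1
      refine Finset.sum_congr rfl fun i _ => ?_
      have : 0 ≤ n * lam i := mul_nonneg (Nat.cast_nonneg n) (hA.nonneg i)
      rw [Real.log_rpow (by linarith)]
    · intro i _
      have : 0 ≤ n * lam i := mul_nonneg (Nat.cast_nonneg n) (hA.nonneg i)
      exact (Real.rpow_pos_of_pos (by linarith) _).ne'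
  have habs := le_abs_self (Real.log (Ce * Cg))
  have hsum : ∑ i, (-(1 / 2 : ℝ)) * Real.log (1 + n * lam i) =
      -∑ i, 1 / 2 * Real.log (1 + n * lam i) := by
    rw [← Finset.sum_neg_distrib]
    exact Finset.sum_congr rfl fun i _ => by ring
  rw [hsum] at hlog
  linarith

end Pool.KVA
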